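import Pool.Agent.Q181.LG.Stm

set_option autoImplicit false
set_option linter.unusedSectionVars false

/-! Matrices of norm in a window above `3 / √2`, whose width is exponentially small in the size or in the
inverse of the spectral gap, come from cyclic (virtually cyclic) subgroups. -/

namespace Pool.Agent.Q181.LG

open Matrix TH57.Thr TH6.LF
open Pool.Agent.Q181.LR (Struct struct_adj struct_min NormLE_adj')

variable {G : Type} [Group G] {ι κ : Type} [Fintype ι] [Fintype κ] [DecidableEq ι] [DecidableEq κ]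

/-- the norm of `A` is in the window: at most `3 / √2` plus a number which is exponentially small in the
size of `A` or in the inverse of the square root of its spectral gap -/
def Win (A : Matrix ι κ (MonoidAlgebra ℤ G)) : Prop :=
  NormLE A (3 / Real.sqrt 2 + (1 / 2) ^ (2 * min (Fintype.card ι) (Fintype.card κ) + 30)) ∨
    ∃ K : ℕ, Gapped A ((K : ℝ) ^ 2) ∧ NormLE A (3 / Real.sqrt 2 + (1 / 2) ^ (16 * K + 31))

theorem structC_adj (A : Matrix ι κ (MonoidAlgebra ℤ G)) (h : StructC (adj A)) : StructC A := by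
  obtain ⟨ρ, u, C, hC, hst⟩ := h
  refine ⟨Sum.swap ∘ ρ ∘ Sum.swap, u ∘ Sum.swap, C ∘ Sum.swap, fun b => hC _,
    fun i j h hne => ?_⟩
  have h1 := hst j i h⁻¹ (by rw [coeff_adj, inv_inv]; exact hne)
  refine ⟨by simp only [Function.comp, Sum.swap_inl, Sum.swap_inr]; rw [h1.1], ?_⟩
  simp only [Function.comp, Sum.swap_inl, Sum.swap_inr, Sum.swap_swap]
  rw [← h1.1]
  have h2 := inv_mem h1.2
  rw [_root_.mul_inv_rev, _root_.mul_inv_rev, inv_inv, inv_inv, ← mul_assoc] at h2
  exact h2

theorem structC_size (htf : ∀ g : G, ∀ k : ℕ, 0 < k → g ^ k = 1 → g = 1)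
    (A : Matrix ι κ (MonoidAlgebra ℤ G))
    (hA : NormLE A (3 / Real.sqrt 2 + (1 / 2) ^ (2 * Fintype.card ι + 30))) : StructC A :=
  Pool.Agent.Q181.TO.structure_of A fun b =>
    Pool.Agent.Q181.TO.stab_cyclic_of htf A b _ (Pool.Agent.Q181.LW.noTripod_size A hA b)

theorem structC_min (htf : ∀ g : G, ∀ k : ℕ, 0 < k → g ^ k = 1 → g = 1)
    (A : Matrix ι κ (MonoidAlgebra ℤ G))
    (hA : NormLE A (3 / Real.sqrt 2
      + (1 / 2) ^ (2 * min (Fintype.card ι) (Fintype.card κ) + 30))) : StructC A := by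
  rcases le_total (Fintype.card ι) (Fintype.card κ) with h | h
  · rw [min_eq_left h] at hA
    exact structC_size htf A hA
  · rw [min_eq_right h] at hA
    exact structC_adj A (structC_size htf (adj A) (NormLE_adj' A _ hA))

/-- **The window theorem** (from `S_str`). -/
theorem window_of (hs : S_str) (A : Matrix ι κ (MonoidAlgebra ℤ G)) (h : Win A) :
    Struct A ∧ ((∀ g : G, ∀ k : ℕ, 0 < k → g ^ k = 1 → g = 1) → StructC A) := by
  rcases h with h | ⟨K, hK, h⟩
  · exact ⟨struct_min A h, fun htf => structC_min htf A h⟩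
  · exact hs G ι κ A K hK h

/-- the norms below the threshold are in the window -/
theorem win_of_lt (A : Matrix ι κ (MonoidAlgebra ℤ G)) (c : ℝ) (hc0 : 0 ≤ c) (hc : c ^ 2 < 9 / 2)
    (hA : NormLE A c) : Win A := by
  left
  refine Pool.Agent.Q181.LW.NormLE_mono hc0 ?_ hA
  have h1 : c < 3 / Real.sqrt 2 := by
    have h2 : c ^ 2 < (3 / Real.sqrt 2) ^ 2 := by
      rw [div_pow, Real.sq_sqrt two_pos.le]
      linarith
    exact lt_of_pow_lt_pow_left₀ 2 (by positivity) h2
  have h3 : (0 : ℝ) < (1 / 2) ^ (2 * min (Fintype.card ι) (Fintype.card κ) + 30) := by positivity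
  linarith

end Pool.Agent.Q181.LG
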