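import Pool.Agent.Q181.LR.Up
import Pool.Agent.Q181.LR.Vc
import Pool.Agent.Q181.TO.Cyc

set_option autoImplicit false
set_option linter.unusedSectionVars false

/-!
# The gap law: statements

`G` is any group, `A` an integral matrix over the group ring, norms are operator norms on `ℓ²`
(formulated on finitely supported real row vectors: `NormLE`, `normSq`). `LB A D` (`LW/Sub3.lean`) says
that `A` is bounded below. Here it is replaced by a spectral gap at zero.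
-/

namespace Pool.Agent.Q181.LG

open Matrix TH57.Thr TH6.LF
open Pool.Agent.Q181.LW (LB TriData)
open Pool.Agent.Q181.LR (Eqv Struct)

section defs

variable {G : Type} [Group G] {ι κ : Type} [Fintype ι] [Fintype κ]

/-- **Spectral gap at zero.** Every vector `x` is within distance `√(D |xA|²)` of the kernel of `A` on
`ℓ²` (formulated with finitely supported vectors): the spectrum of `A A*` is in `{0} ∪ [1 / D, ∞)`. -/
def Gapped (A : Matrix ι κ (MonoidAlgebra ℤ G)) (D : ℝ) : Prop :=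
  ∀ (x : ι → MonoidAlgebra ℝ G) (ε : ℝ), 0 < ε → ∃ x' : ι → MonoidAlgebra ℝ G,
    normSq (x' ᵥ* toReal A) ≤ ε ∧ normSq (x - x') ≤ D * normSq (x ᵥ* toReal A) + ε

/-- the inequality `A A* A A* ≥ A A* / D` -/
def Gap1 (A : Matrix ι κ (MonoidAlgebra ℤ G)) (D : ℝ) : Prop :=
  ∀ x : ι → MonoidAlgebra ℝ G,
    normSq (x ᵥ* toReal A) ≤ D * normSq ((x ᵥ* toReal A) ᵥ* toReal (adj A))

/-- `A` has a generalised inverse of norm at most `|K|` -/
def GI (A : Matrix ι κ (MonoidAlgebra ℤ G)) (K : ℝ) : Prop :=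
  ∃ Y : Matrix κ ι (MonoidAlgebra ℤ G), A * Y * A = A ∧ NormLE Y K

/-- Up to a change of bases by group elements, `A` is a direct sum of matrices over group rings of
cyclic subgroups (compare `LR.Struct`, for virtually cyclic subgroups). -/
def StructC (A : Matrix ι κ (MonoidAlgebra ℤ G)) : Prop :=
  ∃ (ρ : ι ⊕ κ → ι ⊕ κ) (u : ι ⊕ κ → G) (C : ι ⊕ κ → Subgroup G),
    (∀ b, IsCyclic (C b)) ∧ ∀ i j h, (A i j).coeff h ≠ 0 →
      ρ (Sum.inl i) = ρ (Sum.inr j) ∧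
        u (Sum.inl i) * h * (u (Sum.inr j))⁻¹ ∈ C (ρ (Sum.inl i))

end defs

/-- (G1) A generalised inverse gives a gap: `x' = x - x A Y`, `x' A = 0`, `x - x' = (x A) Y`.
A lower bound gives a gap: `x' = 0`. -/
def S_gi : Prop := ∀ (G : Type) [Group G] (ι κ : Type) [Fintype ι] [Fintype κ]
  (A : Matrix ι κ (MonoidAlgebra ℤ G)),
    (∀ K : ℝ, GI A K → Gapped A (K ^ 2)) ∧ ∀ D : ℝ, LB A D → Gapped A D

/-- (G2) Proof. `ip` is the inner product (`TH6/LF/Bar.lean`), `A*` the adjoint, so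
`|xA|² = ip (xAA*) x = ip (xAA*) (x - x') + ip (xA) (x'A) ≤ |xAA*| |x - x'| + |xA| |x'A|`. With `ε → 0`:
`|xA|² ≤ |xAA*| √D |xA|`. (Square: for all `ε > 0`,
`|xA|⁴ ≤ (|xAA*| √(D |xA|² + ε) + |xA| √ε)²`.) -/
def S_g1 : Prop := ∀ (G : Type) [Group G] (ι κ : Type) [Fintype ι] [Fintype κ]
  (A : Matrix ι κ (MonoidAlgebra ℤ G)) (D : ℝ), 0 ≤ D → Gapped A D → Gap1 A D

/-- (G3) **Gap and long tripods.** This is `LW.no_tri_inv` (file `LW/Tent.lean`) with `LB` replaced by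
`Gap1`, the proof is a modification of the proof there. Notation of that proof: rows `p 0, …, p (4h)`
and columns `q 0, …, q (4h - 1)` on the arm number `0`, `q j` between `p j` and `p (j + 1)`, positions
`e + 2 j`, `e + 2 j + 1` with `e ≤ 4` (`8 h + 27 ≤ N` leaves room for `hI` (`isoArm_of`)), signs `sg w`.
Let `d : ℕ → ℝ` be the double tent `d j = min j (2h - j)` for `j ≤ 2h`, `d j = - min (j - 2h) (4h - j)` for
`2h ≤ j ≤ 4h`, and `0` afterwards; its sum is zero. `c j = - ∑ i < j, d i` vanishes for `j = 0`, for `j ≥ 4h`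
and `d j = c j - c (j + 1)`. The vector `x` with the coefficient `(-1)^j * sg w (e + 2j) * c j` at `p j` has
`x A` supported on the `q j` with the coefficient `(-1)^j * sg w (e + 2j + 1) * d j` (as in the proof there;
here `c 0 = c (4h) = 0` replaces the vanishing of the tent at the ends). In the same way
`(x A) A*` is supported on the `p j` with the coefficient `± (d j - d (j - 1))`, absolute value one for
`1 ≤ j ≤ 4h` and zero for `j = 0` (the only rows adjacent to `q j` are `p j` and `p (j + 1)`, and `d 0 = 0`;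
`wt (adj A) (inl (k, l)) (inr (k', i)) = wt A (inl (k', i)) (inr (k, l))`). So
`|xA|² = ∑ d j ^ 2 = 2 (2 h ^ 3 + h) / 3` (`tent_sum` twice) and `|xAA*|² ≤ 4 h`. -/
def S_tent : Prop := ∀ (G : Type) [Group G] (ι κ : Type) [Fintype ι] [Fintype κ] [DecidableEq ι]
  [DecidableEq κ] (A : Matrix ι κ (MonoidAlgebra ℤ G)) (t δ : ℝ), 0 < t → t ^ 2 = 1 / 2 → 0 ≤ δ →
    NormLE A (3 * t + δ) → ∀ (N : ℕ) (a : Fin 3 → ℕ → Vx G ι κ) (o : Vx G ι κ),
      TriData (wt A) N a o → δ ≤ (1 / 2) ^ (N + 4) → ∀ D : ℝ, Gap1 A D →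
        ∀ h : ℕ, 1 ≤ h → 8 * h + 27 ≤ N → 2 * (h : ℝ) ^ 2 + 1 ≤ 6 * D

/-- (G4) **No long tripods.** Proof: as `LW.noTripod_inv` (`LW/Law.lean`), from `S_tent` with `h = 2 K`,
`D = K ^ 2`, and `S_g1`. If `K = 0` then `Gap1 A 0` says `x A = 0` for all `x`, so `wt A = 0`, contradiction
to `hT.hW1`. (`S_g1`, `S_tent` may be assumed.) -/
def S_notri : Prop := ∀ (G : Type) [Group G] (ι κ : Type) [Fintype ι] [Fintype κ] [DecidableEq ι]
  [DecidableEq κ] (A : Matrix ι κ (MonoidAlgebra ℤ G)) (K : ℕ), Gapped A ((K : ℝ) ^ 2) →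
    NormLE A (3 / Real.sqrt 2 + (1 / 2) ^ (16 * K + 31)) → ∀ b : Vx G ι κ,
      ¬ HasTripod (cp A b).toSimpleGraph (16 * K + 27)

/-- (G5) **Structure.** Proof: `S_notri`, `LR.struct_of`, `LR.stab_vc_of` (any group) and
`TO.structure_of`, `TO.stab_cyclic_of` (torsion-free group). (`S_notri` may be assumed.) -/
def S_str : Prop := ∀ (G : Type) [Group G] (ι κ : Type) [Fintype ι] [Fintype κ] [DecidableEq ι]
  [DecidableEq κ] (A : Matrix ι κ (MonoidAlgebra ℤ G)) (K : ℕ), Gapped A ((K : ℝ) ^ 2) →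
    NormLE A (3 / Real.sqrt 2 + (1 / 2) ^ (16 * K + 31)) →
      Struct A ∧ ((∀ g : G, ∀ k : ℕ, 0 < k → g ^ k = 1 → g = 1) → StructC A)

/-- (G6) **Gap of an equivalent matrix.** The analogue of `LR.eqv_LB` (and `LR.LB_sub`): if
`B = P (A ⊕ 1) P'` and `x` is given, put `y = x P = (y₁, y₂)`, approximate `y₁` by `y₁'` (gap of `A`), put
`y' = (y₁', 0)`, `x' = y' P⁻¹`. Then `x' B = (y₁' A, 0) P'` and `x - x' = (y₁ - y₁', y₂) P⁻¹`. For `GI`: if
`A Y A = A` then `P'⁻¹ (Y ⊕ 1) P⁻¹` is a generalised inverse of `B`. -/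
def S_eqv : Prop := ∀ (G : Type) [Group G] (ι κ X : Type) [Fintype ι] [Fintype κ] [Fintype X]
  [DecidableEq ι] [DecidableEq κ] [DecidableEq X] (A : Matrix ι κ (MonoidAlgebra ℤ G))
  (B : Matrix (ι ⊕ X) (κ ⊕ X) (MonoidAlgebra ℤ G)), Eqv A B →
    ∃ C : ℕ, (∀ D : ℝ, 0 ≤ D → Gapped A D → Gapped B (C * (D + 1))) ∧
      ∀ K : ℝ, 0 ≤ K → GI A K → GI B (C * (K + 1))

/-- (G7) **Gap of the subdivided matrix.** The analogue of `LR.LB_Zs` (`LR/Low.lean`), same estimates.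
Gap: given `y = (yk, yx)` with image `z = (zk, zx)`, one has `yk A = zk - zx Sv`. Let `yk'` be the vector
given by the gap of `A` for `yk` and a small `ε'`, and `y' = (yk', - yk' Qv)`. As in the proof there (with
`yx' = - yk' Qv` and `QsVs`, `VsUs`, `QVS`) the image of `y'` is `(yk' A, 0)`, and
`y - y' = (yk - yk', zx Vs - (yk - yk') Qv)`.
`GI`: if `A Y A = A` let `T` be the matrix with `(zk, zx) T = (yk, zx Vs - yk Qv)`, `yk = (zk - zx Sv) Y`;
`Zs T Zs = Zs`, and `|z T|² ≤ (42 K ^ 2 + 2) L ^ 2 |z|²`. -/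
def S_zs : Prop := ∀ (G : Type) [Group G] (ι κ E : Type) [Fintype ι] [Fintype κ] [Fintype E]
  [DecidableEq ι] [DecidableEq κ] [DecidableEq E] (s : E → ι) (t : E → κ)
  (z : E → MonoidAlgebra ℤ G) (L : ℕ), 1 ≤ L →
    (∀ i, ((Finset.univ.filter fun e => s e = i).card : ℝ) ≤ 3) →
    (∀ j, ((Finset.univ.filter fun e => t e = j).card : ℝ) ≤ 3) →
    (∀ e, Pool.Agent.Q181.LW.Mono (z e)) →
    ∀ A : Matrix ι κ (MonoidAlgebra ℤ G), Pool.Agent.Q181.LR.IsSum s t z A →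
      (∀ D : ℝ, 0 ≤ D → Gapped A D →
        Gapped (Pool.Agent.Q181.LR.Zs s t z L) ((42 * D + 2) * L ^ 2)) ∧
      ∀ K : ℝ, 0 ≤ K → GI A K → GI (Pool.Agent.Q181.LR.Zs s t z L) (7 * (K + 1) * L)

/-- (G8) **The logarithmic upper bound.** Proof: as `LR.step_two` and `LR.upper_rect` (`LR/Up.lean`), with
`S_eqv` and `S_zs` instead of `eqv_LB`, `LB_Zs`, and the trivial analogues of `LB_sub` (submatrices along
bijections) and `LB_mono`. (`S_eqv`, `S_zs` may be assumed.) -/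
def S_up : Prop := ∀ (G : Type) [Group G] (ι κ : Type) [Fintype ι] [Fintype κ] [DecidableEq ι]
  [DecidableEq κ] (A : Matrix ι κ (MonoidAlgebra ℤ G)), ∃ C : ℕ, ∀ L : ℕ, 1 ≤ L →
    ∃ (m : ℕ) (B : Matrix (ι ⊕ Fin m) (κ ⊕ Fin m) (MonoidAlgebra ℤ G)),
      Eqv A B ∧ m ≤ C * L ∧ NormLE B (3 / Real.sqrt 2 + (1 / 2) ^ L) ∧
        (∀ D : ℝ, 0 ≤ D → Gapped A D → Gapped B (C * (D + 1) * L ^ 2)) ∧
        ∀ K : ℝ, 0 ≤ K → GI A K → GI B (C * (K + 1) * L)

end Pool.Agent.Q181.LG
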